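import Pool.Agent.Helper25.LS.Defs

/-!
# HI: an equivalent norm with the parallelogram law gives an isomorphic Hilbert space
-/

set_option autoImplicit false

open Filter Topology Module

noncomputable section

namespace Pool.Agent.Helper61.LS

open Pool.Agent.Helper25.LS

/-- the space `Y` with another norm -/
def Syn (Y : Type) : Type := Y

theorem hi : S_HI := by
  intro Y _ _ _ C N hN hadd hsmul hpar
  let i1 : AddCommGroup (Syn Y) := inferInstanceAs (AddCommGroup Y)
  let i2 : Module ℂ (Syn Y) := inferInstanceAs (Module ℂ Y)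
  have hN0 : ∀ y : Y, 0 ≤ N y := fun y => (norm_nonneg y).trans (hN y).1
  have hz : N 0 = 0 := by
    have := hsmul 0 (0 : Y)
    simpa using this
  let nrm : AddGroupNorm (Syn Y) :=
    { toFun := fun y => N y
      map_zero' := hz
      add_le' := fun y z => hadd y z
      neg' := fun y => by
        have h1 : N (((-1 : ℂ)) • (y : Y)) = ‖(-1 : ℂ)‖ * N y := hsmul (-1) (y : Y)
        have h2 : ((-1 : ℂ)) • (y : Y) = -(y : Y) := neg_one_smul ℂ (y : Y)
        rw [h2, norm_neg, norm_one, one_mul] at h1
        exact h1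
      eq_zero_of_map_eq_zero' := fun y hy => by
        have h1 := (hN (y : Y)).1
        have hy' : N y = 0 := hy
        rw [hy'] at h1
        exact norm_le_zero_iff.1 h1 }
  let i3 : NormedAddCommGroup (Syn Y) := nrm.toNormedAddCommGroup
  let i4 : NormedSpace ℂ (Syn Y) :=
    { toModule := i2
      norm_smul_le := fun a y => le_of_eq (hsmul a y) }
  have hnorm : ∀ y : Syn Y, ‖y‖ = N y := fun y => rfl
  let i5 : InnerProductSpace ℂ (Syn Y) := InnerProductSpace.ofNorm ℂ (fun x y => hpar x y)
  let e : Y ≃ₗ[ℂ] Syn Y := LinearEquiv.refl ℂ Y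
  let Φ : Y ≃L[ℂ] Syn Y := e.toContinuousLinearEquivOfBounds C 1
    (fun y => (hN y).2) (fun y => by
      rw [one_mul]
      exact (hN (y : Y)).1)
  have hcomp : CompleteSpace (Syn Y) :=
    (completeSpace_congr (e := (Φ.toLinearEquiv.toEquiv)) Φ.isUniformEmbedding).1 inferInstance
  exact ⟨Syn Y, i3, i5, hcomp, Φ, fun y => rfl⟩

end Pool.Agent.Helper61.LS
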