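import Pool.Agent.Helper25.LS.Defs

/-!
# LF: lifting of functionals from a Hilbertian ultraproduct (MP_03bcbb_an)
-/

set_option autoImplicit false

open Filter Topology Module

noncomputable section

namespace Pool.Agent.Helper61.LS

open Pool.Agent.Helper25.LS

variable {X : ℕ → Type} [∀ j, NormedAddCommGroup (X j)] [∀ j, NormedSpace ℂ (X j)]
  {U : Ultrafilter ℕ} {Y : Type} [NormedAddCommGroup Y] [NormedSpace ℂ Y]

/-- a bounded family as an element of the sum space -/
lemma exists_lp {E : ℕ → Type} [∀ j, NormedAddCommGroup (E j)] (x : ∀ j, E j) (B : ℝ)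
    (hB : ∀ j, ‖x j‖ ≤ B) : ∃ w : lp E ⊤, ∀ j, w j = x j :=
  ⟨⟨x, memℓp_infty ⟨B, by rintro _ ⟨j, rfl⟩; exact hB j⟩⟩, fun _ => rfl⟩

/-- the functional induced by a bounded family of functionals -/
lemma exists_func (D : Ult X U Y) (g : ∀ j, X j →L[ℂ] ℂ) (B : ℝ) (hB : ∀ j, ‖g j‖ ≤ B) :
    ∃ h : Y →L[ℂ] ℂ, ‖h‖ ≤ B ∧
      ∀ x : lp X ⊤, Tendsto (fun j => g j (x j)) (U : Filter ℕ) (𝓝 (h (D.π x))) := by
  have hB0 : 0 ≤ B := le_trans (norm_nonneg _) (hB 0)
  have hpt : ∀ (x : lp X ⊤) (j : ℕ), ‖g j (x j)‖ ≤ B * ‖x j‖ := fun x j =>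
    ((g j).le_opNorm _).trans (mul_le_mul_of_nonneg_right (hB j) (norm_nonneg _))
  have hex : ∀ x : lp X ⊤, ∃ c : ℂ,
      Tendsto (fun j => g j (x j)) (U : Filter ℕ) (𝓝 c) := by
    intro x
    have hb : ∀ j, g j (x j) ∈ Metric.closedBall (0:ℂ) (B * ‖x‖) := by
      intro j
      rw [mem_closedBall_zero_iff]
      exact (hpt x j).trans (mul_le_mul_of_nonneg_left
        (lp.norm_apply_le_norm (by simp) x j) hB0)
    obtain ⟨c, -, hc⟩ := (isCompact_closedBall (0:ℂ) (B * ‖x‖)).ultrafilter_le_nhds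
      (U.map (fun j => g j (x j))) (by
        rw [le_principal_iff]
        exact Filter.mem_map.2 (Filter.Eventually.of_forall hb))
    exact ⟨c, hc⟩
  choose lim hlim using hex
  have hz : ∀ x : lp X ⊤, ‖lim x‖ ≤ B * ‖D.π x‖ := by
    intro x
    exact le_of_tendsto_of_tendsto (hlim x).norm ((D.lim x).const_mul B)
      (Filter.Eventually.of_forall (hpt x))
  have hadd : ∀ x y : lp X ⊤, lim (x + y) = lim x + lim y := by
    intro x y
    refine tendsto_nhds_unique (hlim (x + y)) ?_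
    have := (hlim x).add (hlim y)
    simpa using this
  have hsmul : ∀ (c : ℂ) (x : lp X ⊤), lim (c • x) = c • lim x := by
    intro c x
    refine tendsto_nhds_unique (hlim (c • x)) ?_
    have := (hlim x).const_smul c
    simpa using this
  have hsub : ∀ x y : lp X ⊤, D.π x = D.π y → lim x = lim y := by
    intro x y h
    have h1 : lim (x + (-1 : ℂ) • y) = lim x + (-1 : ℂ) • lim y := by rw [hadd, hsmul]
    have h2 := hz (x + (-1 : ℂ) • y)
    have h3 : D.π (x + (-1 : ℂ) • y) = 0 := by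
      rw [map_add, map_smul, h]; simp
    rw [h3, h1, norm_zero, mul_zero] at h2
    have h4 : lim x + (-1 : ℂ) • lim y = 0 := norm_le_zero_iff.1 h2
    have : lim x = lim y := by
      have h5 : (-1 : ℂ) • lim y = - lim y := by simp
      rw [h5] at h4
      exact add_neg_eq_zero.1 h4
    exact this
  let s : Y → lp X ⊤ := Function.surjInv D.surj
  have hs : ∀ y, D.π (s y) = y := Function.surjInv_eq D.surj
  let f : Y →ₗ[ℂ] ℂ :=
    { toFun := fun y => lim (s y)
      map_add' := fun y z => by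
        rw [← hadd]
        exact hsub _ _ (by rw [map_add, hs, hs, hs])
      map_smul' := fun c y => by
        change lim (s (c • y)) = c • lim (s y)
        rw [← hsmul]
        exact hsub _ _ (by rw [map_smul, hs, hs]) }
  have hf : ∀ y, ‖f y‖ ≤ B * ‖y‖ := by
    intro y
    have := hz (s y)
    rwa [hs] at this
  refine ⟨f.mkContinuous B hf, f.mkContinuous_norm_le hB0 hf, ?_⟩
  intro x
  have : lim (s (D.π x)) = lim x := hsub _ _ (hs _)
  change Tendsto _ _ (𝓝 (lim (s (D.π x))))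
  rw [this]
  exact hlim x

/-- norm control -/
lemma control (D : Ult X U Y) (g : ∀ j, X j →L[ℂ] ℂ) (h : Y →L[ℂ] ℂ)
    (hg : ∀ x : lp X ⊤, Tendsto (fun j => g j (x j)) (U : Filter ℕ) (𝓝 (h (D.π x)))) :
    ∃ g' : ∀ j, X j →L[ℂ] ℂ, (∀ j, ‖g' j‖ ≤ ‖h‖) ∧
      ∀ x : lp X ⊤, Tendsto (fun j => g' j (x j)) (U : Filter ℕ) (𝓝 (h (D.π x))) := by
  have key : ∀ ε : ℝ, 0 < ε → ∀ᶠ j in (U : Filter ℕ), ‖g j‖ ≤ ‖h‖ + ε := by
    intro ε hε
    by_contra hcon
    rw [← Ultrafilter.eventually_not] at hcon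
    have hx : ∀ j, ∃ x : X j, ‖x‖ ≤ 1 ∧ (¬ ‖g j‖ ≤ ‖h‖ + ε → ‖h‖ + ε / 2 ≤ ‖g j x‖) := by
      intro j
      by_cases hj : ‖g j‖ ≤ ‖h‖ + ε
      · exact ⟨0, by simp, fun h => absurd hj h⟩
      · push Not at hj
        obtain ⟨x, hx1, hx2⟩ := (g j).exists_lt_apply_of_lt_opNorm
          (show ‖h‖ + ε / 2 < ‖g j‖ by linarith)
        exact ⟨x, hx1.le, fun _ => hx2.le⟩
    choose x hx1 hx2 using hx
    obtain ⟨w, hw⟩ := exists_lp x 1 hx1
    have h1 : ‖D.π w‖ ≤ 1 := by
      refine le_of_tendsto (D.lim w) (Filter.Eventually.of_forall fun j => ?_)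
      rw [hw]; exact hx1 j
    have h2 : ‖h‖ + ε / 2 ≤ ‖h (D.π w)‖ := by
      refine ge_of_tendsto (hg w).norm (hcon.mono fun j hj => ?_)
      rw [hw]; exact hx2 j hj
    have h3 : ‖h (D.π w)‖ ≤ ‖h‖ := by
      calc ‖h (D.π w)‖ ≤ ‖h‖ * ‖D.π w‖ := h.le_opNorm _
        _ ≤ ‖h‖ * 1 := mul_le_mul_of_nonneg_left h1 (norm_nonneg _)
        _ = ‖h‖ := mul_one _
    linarith
  let c : ℕ → ℝ := fun j => min 1 (‖h‖ / ‖g j‖)
  have hc0 : ∀ j, 0 ≤ c j := fun j => le_min zero_le_one (by positivity)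
  have hc1 : ∀ j, c j ≤ 1 := fun j => min_le_left _ _
  refine ⟨fun j => (c j : ℂ) • g j, ?_, ?_⟩
  · intro j
    rw [norm_smul, Complex.norm_real, Real.norm_of_nonneg (hc0 j)]
    rcases eq_or_lt_of_le (norm_nonneg (g j)) with h0 | h0
    · rw [← h0, mul_zero]; exact norm_nonneg _
    · calc c j * ‖g j‖ ≤ (‖h‖ / ‖g j‖) * ‖g j‖ :=
            mul_le_mul_of_nonneg_right (min_le_right _ _) (norm_nonneg _)
        _ = ‖h‖ := by field_simp
  · intro x
    have hd : Tendsto (fun j => ((c j : ℂ) • g j) (x j) - g j (x j)) (U : Filter ℕ) (𝓝 0) := by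
      rw [Metric.tendsto_nhds]
      intro ε hε
      have hx0 : 0 ≤ ‖x‖ := norm_nonneg _
      filter_upwards [key (ε / (2 * (‖x‖ + 1))) (by positivity)] with j hj
      rw [dist_zero_right]
      have h1 : ((c j : ℂ) • g j) (x j) - g j (x j) = ((c j - 1 : ℝ) : ℂ) • g j (x j) := by
        simp [sub_mul]
      rw [h1, norm_smul, Complex.norm_real]
      have h2 : ‖(c j - 1 : ℝ)‖ = 1 - c j := by
        rw [Real.norm_eq_abs, abs_sub_comm, abs_of_nonneg (by linarith [hc1 j])]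
      rw [h2]
      have h3 : (1 - c j) * ‖g j‖ ≤ ε / (2 * (‖x‖ + 1)) := by
        rcases eq_or_lt_of_le (norm_nonneg (g j)) with h0 | h0
        · rw [← h0, mul_zero]; positivity
        · rcases le_total 1 (‖h‖ / ‖g j‖) with h4 | h4
          · have : c j = 1 := min_eq_left h4
            rw [this]; simp; positivity
          · have : c j = ‖h‖ / ‖g j‖ := min_eq_right h4
            rw [this]
            have h5 : (1 - ‖h‖ / ‖g j‖) * ‖g j‖ = ‖g j‖ - ‖h‖ := by field_simp
            rw [h5]; linarith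
      calc (1 - c j) * ‖g j (x j)‖ ≤ (1 - c j) * (‖g j‖ * ‖x‖) := by
            refine mul_le_mul_of_nonneg_left ?_ (by linarith [hc1 j])
            exact ((g j).le_opNorm _).trans (mul_le_mul_of_nonneg_left
              (lp.norm_apply_le_norm (by simp) x j) (norm_nonneg _))
        _ = ((1 - c j) * ‖g j‖) * ‖x‖ := by ring
        _ ≤ (ε / (2 * (‖x‖ + 1))) * ‖x‖ := mul_le_mul_of_nonneg_right h3 hx0
        _ < ε := by
            rw [div_mul_eq_mul_div, div_lt_iff₀ (by positivity)]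
            nlinarith
    have := hd.add (hg x)
    simpa using this

/-- the submodule of the functionals with a bounded lift -/
def liftable (D : Ult X U Y) : Submodule ℂ (Y →L[ℂ] ℂ) where
  carrier := {h | ∃ (g : ∀ j, X j →L[ℂ] ℂ) (B : ℝ), (∀ j, ‖g j‖ ≤ B) ∧
    ∀ x : lp X ⊤, Tendsto (fun j => g j (x j)) (U : Filter ℕ) (𝓝 (h (D.π x)))}
  zero_mem' := ⟨fun _ => 0, 0, by simp, by simp⟩
  add_mem' := by
    rintro h h' ⟨g, B, hB, hg⟩ ⟨g', B', hB', hg'⟩
    refine ⟨fun j => g j + g' j, B + B', fun j => (norm_add_le _ _).trans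
      (add_le_add (hB j) (hB' j)), fun x => ?_⟩
    have := (hg x).add (hg' x)
    simpa using this
  smul_mem' := by
    rintro c h ⟨g, B, hB, hg⟩
    refine ⟨fun j => c • g j, ‖c‖ * B, fun j => ?_, fun x => ?_⟩
    · rw [norm_smul]
      exact mul_le_mul_of_nonneg_left (hB j) (norm_nonneg _)
    · have := (hg x).const_smul c
      simpa using this

lemma liftable_closed (D : Ult X U Y) (h : Y →L[ℂ] ℂ)
    (hh : h ∈ (liftable D).topologicalClosure) : h ∈ liftable D := by
  have hle : ∀ g : lp (fun j => X j →L[ℂ] ℂ) ⊤, ∀ j, ‖g j‖ ≤ ‖g‖ :=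
    fun g j => lp.norm_apply_le_norm (by simp) g j
  choose Λ hΛ1 hΛ2 using fun g : lp (fun j => X j →L[ℂ] ℂ) ⊤ => exists_func D g ‖g‖ (hle g)
  have huniq : ∀ (g : ∀ j, X j →L[ℂ] ℂ) (h₁ h₂ : Y →L[ℂ] ℂ),
      (∀ x : lp X ⊤, Tendsto (fun j => g j (x j)) (U : Filter ℕ) (𝓝 (h₁ (D.π x)))) →
      (∀ x : lp X ⊤, Tendsto (fun j => g j (x j)) (U : Filter ℕ) (𝓝 (h₂ (D.π x)))) →
      h₁ = h₂ := by
    intro g h₁ h₂ H₁ H₂
    ext y
    obtain ⟨x, rfl⟩ := D.surj y
    exact tendsto_nhds_unique (H₁ x) (H₂ x)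
  let f : NormedAddGroupHom (lp (fun j => X j →L[ℂ] ℂ) ⊤) (Y →L[ℂ] ℂ) :=
    { toFun := Λ
      map_add' := fun g g' => by
        refine huniq (fun j => (g + g' : lp (fun j => X j →L[ℂ] ℂ) ⊤) j) _ _
          (hΛ2 (g + g')) (fun x => ?_)
        have := (hΛ2 g x).add (hΛ2 g' x)
        simpa using this
      bound' := ⟨1, fun g => by simpa using hΛ1 g⟩ }
  have hsurj : f.SurjectiveOnWith (liftable D).toAddSubgroup 1 := by
    intro h' hh'
    obtain ⟨g, B, hB, hg⟩ := hh'
    obtain ⟨g', hg'1, hg'2⟩ := control D g h' hg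
    obtain ⟨w, hw⟩ := exists_lp g' ‖h'‖ hg'1
    refine ⟨w, ?_, ?_⟩
    · change Λ w = h'
      refine huniq g' _ _ (fun x => ?_) hg'2
      have h3 := hΛ2 w x
      have h4 : (fun j => g' j (x j)) = fun j => w j (x j) := by
        funext j; rw [hw]
      rw [h4]
      exact h3
    · rw [one_mul]
      refine lp.norm_le_of_forall_le (norm_nonneg _) fun j => ?_
      rw [hw]; exact hg'1 j
  have h2 := controlled_closure_of_complete (f := f) (ε := 1) one_pos one_pos hsurj
  obtain ⟨g, hg, -⟩ := h2 h hh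
  refine ⟨fun j => g j, ‖g‖, hle g, ?_⟩
  rw [← hg]
  exact hΛ2 g

theorem lf : S_LF := by
  intro X _ _ U Y _ _ D H _ _ _ Φ h
  suffices hmem : h ∈ liftable D by
    obtain ⟨g, B, hB, hg⟩ := hmem
    exact control D g h hg
  apply liftable_closed
  let W : Submodule ℂ H :=
    { carrier := {u | (innerSL ℂ u) ∘L (Φ : Y →L[ℂ] H) ∈ (liftable D).topologicalClosure}
      zero_mem' := by simp
      add_mem' := by
        intro a b ha hb
        have := (liftable D).topologicalClosure.add_mem ha hb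
        simpa [ContinuousLinearMap.add_comp] using this
      smul_mem' := by
        intro c a ha
        have := (liftable D).topologicalClosure.smul_mem (starRingEnd ℂ c) ha
        have h1 : (innerSL ℂ (c • a)) ∘L (Φ : Y →L[ℂ] H) =
            (starRingEnd ℂ c) • ((innerSL ℂ a) ∘L (Φ : Y →L[ℂ] H)) := by
          ext y; simp
        change (innerSL ℂ (c • a)) ∘L (Φ : Y →L[ℂ] H) ∈ (liftable D).topologicalClosure
        rw [h1]; exact this }
  have hWc : IsClosed (W : Set H) := by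
    have hcont : Continuous fun u : H => (innerSL ℂ u) ∘L (Φ : Y →L[ℂ] H) :=
      (innerSL ℂ (E := H)).continuous.clm_comp continuous_const
    exact (liftable D).isClosed_topologicalClosure.preimage hcont
  have hWt : W = ⊤ := by
    have : CompleteSpace W := hWc.completeSpace_coe
    rw [← Submodule.orthogonal_eq_bot_iff]
    rw [Submodule.eq_bot_iff]
    intro v hv
    by_contra hv0
    let y : Y := Φ.symm v
    have hy0 : y ≠ 0 := by
      intro h0
      apply hv0
      have : Φ y = v := Φ.apply_symm_apply v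
      rw [← this, h0, map_zero]
    obtain ⟨x, hx⟩ := D.surj y
    choose g hg1 hg2 using fun j => exists_dual_vector'' ℂ (x j)
    obtain ⟨k, hk1, hk2⟩ := exists_func D g 1 hg1
    have hk3 : k y = ‖y‖ := by
      have h1 := hk2 x
      have h2 : Tendsto (fun j => ((‖x j‖ : ℝ) : ℂ)) (U : Filter ℕ) (𝓝 ((‖D.π x‖ : ℝ) : ℂ)) :=
        (Complex.continuous_ofReal.tendsto _).comp (D.lim x)
      have h3 := tendsto_nhds_unique h1 (by simpa [hg2] using h2)
      rw [hx] at h3
      exact h3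
    have hkm : k ∈ (liftable D).topologicalClosure :=
      (liftable D).le_topologicalClosure ⟨g, 1, hg1, hk2⟩
    let u : H := (InnerProductSpace.toDual ℂ H).symm (k ∘L (Φ.symm : H →L[ℂ] Y))
    have hu : (innerSL ℂ u) ∘L (Φ : Y →L[ℂ] H) = k := by
      ext z
      change inner ℂ u (Φ z) = k z
      rw [InnerProductSpace.toDual_symm_apply]
      simp
    have huW : u ∈ W := by
      change (innerSL ℂ u) ∘L (Φ : Y →L[ℂ] H) ∈ (liftable D).topologicalClosure
      rw [hu]; exact hkm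
    have h4 : inner ℂ u v = 0 := (Submodule.mem_orthogonal W v).1 hv u huW
    have h5 : inner ℂ u v = k y := by
      rw [InnerProductSpace.toDual_symm_apply]
      rfl
    rw [h5, hk3] at h4
    exact hy0 (by simpa using h4)
  let u : H := (InnerProductSpace.toDual ℂ H).symm (h ∘L (Φ.symm : H →L[ℂ] Y))
  have hu : (innerSL ℂ u) ∘L (Φ : Y →L[ℂ] H) = h := by
    ext z
    change inner ℂ u (Φ z) = h z
    rw [InnerProductSpace.toDual_symm_apply]
    simp
  have huW : u ∈ W := by rw [hWt]; trivial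
  have : (innerSL ℂ u) ∘L (Φ : Y →L[ℂ] H) ∈ (liftable D).topologicalClosure := huW
  rwa [hu] at this

end Pool.Agent.Helper61.LS
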